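import Mathlib

/-!
# Diophantine functions: binomial coefficients, factorials, products
-/

set_option autoImplicit false

namespace Pool.Agent.H64

open Finset (range)

/-! ### digits -/

lemma digit_lt (u : ℕ) (c : ℕ → ℕ) (hc : ∀ j, c j < u) (k : ℕ) :
    ∑ j ∈ range k, c j * u ^ j < u ^ k := by
  induction k with
  | zero => simp
  | succ k ih =>
    rw [Finset.sum_range_succ, pow_succ]
    have h1 : c k * u ^ k + u ^ k ≤ u ^ k * u := by
      have := Nat.mul_le_mul_right (u ^ k) (Nat.succ_le_of_lt (hc k))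
      rw [Nat.succ_mul] at this
      rw [mul_comm (u ^ k) u]
      exact this
    omega

lemma digit_get (u : ℕ) (hu : 0 < u) (c : ℕ → ℕ) (hc : ∀ j, c j < u) (m k : ℕ) (hk : k < m) :
    (∑ j ∈ range m, c j * u ^ j) / u ^ k % u = c k := by
  obtain ⟨d, rfl⟩ := Nat.exists_eq_add_of_lt hk
  have h1 : ∑ j ∈ range (k + d + 1), c j * u ^ j =
      ∑ j ∈ range k, c j * u ^ j + u ^ k * (c k + u * ∑ j ∈ range d, c (k + 1 + j) * u ^ j) := by
    have e : k + d + 1 = k + (d + 1) := by ring
    rw [e, Finset.sum_range_add, Finset.sum_range_succ']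
    simp only [add_zero, Finset.mul_sum, mul_add]
    rw [add_comm (∑ i ∈ range d, _) (c k * u ^ k)]
    congr 1
    congr 1
    · ring
    · refine Finset.sum_congr rfl fun i _ => ?_
      have e2 : k + (i + 1) = k + 1 + i := by ring
      rw [e2, pow_add, pow_add]
      ring
  rw [h1, Nat.add_mul_div_left _ _ (Nat.pow_pos hu), Nat.div_eq_of_lt (digit_lt u c hc k), zero_add,
    Nat.add_mul_mod_self_left, Nat.mod_eq_of_lt (hc k)]

lemma digit_zero (u : ℕ) (hu : 0 < u) (c : ℕ → ℕ) (hc : ∀ j, c j < u) (m k : ℕ) (hk : m ≤ k) :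
    (∑ j ∈ range m, c j * u ^ j) / u ^ k % u = 0 := by
  have h1 := digit_lt u c hc m
  have h2 : u ^ m ≤ u ^ k := Nat.pow_le_pow_right hu hk
  rw [Nat.div_eq_of_lt (by omega), Nat.zero_mod]

lemma choose_eq (n k : ℕ) :
    n.choose k = (1 + (2 ^ n + 1)) ^ n / (2 ^ n + 1) ^ k % (2 ^ n + 1) := by
  have hc : ∀ j, n.choose j < 2 ^ n + 1 := fun j => Nat.lt_succ_of_le (Nat.choose_le_two_pow n j)
  have h1 : (1 + (2 ^ n + 1)) ^ n = ∑ j ∈ range (n + 1), n.choose j * (2 ^ n + 1) ^ j := by
    rw [add_comm, add_pow]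
    refine Finset.sum_congr rfl fun j _ => ?_
    rw [one_pow, mul_one, mul_comm]
    rfl
  rw [h1]
  rcases Nat.lt_or_ge k (n + 1) with h | h
  · rw [digit_get _ (Nat.succ_pos _) _ hc _ _ h]
  · rw [digit_zero _ (Nat.succ_pos _) _ hc _ _ h, Nat.choose_eq_zero_of_lt h]

/-! ### factorials -/

lemma desc_lower (r n : ℕ) (hn : n ≤ r) :
    (r : ℤ) ^ (n + 1) ≤ r * (r.descFactorial n : ℤ) + n ^ 2 * r ^ n := by
  induction n with
  | zero => simp
  | succ n ih =>
    have ih' := ih (by omega)
    rw [Nat.descFactorial_succ]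
    push_cast [Nat.cast_sub (show n ≤ r by omega)]
    have hr : (0 : ℤ) ≤ (r : ℤ) - n := by
      have : (n : ℤ) ≤ r := by exact_mod_cast (show n ≤ r by omega)
      linarith
    have h1 := mul_le_mul_of_nonneg_left ih' hr
    have hp : (0 : ℤ) ≤ (r : ℤ) ^ n := by positivity
    have hn0 : (0 : ℤ) ≤ (n : ℤ) := by positivity
    have h2 : (0 : ℤ) ≤ (n : ℤ) ^ 3 * (r : ℤ) ^ n := by positivity
    have h3 : (0 : ℤ) ≤ (n : ℤ) * (r : ℤ) ^ (n + 1) := by positivity
    have h4 : (0 : ℤ) ≤ (r : ℤ) ^ (n + 1) := by positivity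
    have e1 : (r : ℤ) ^ (n + 1) = r ^ n * r := pow_succ _ _
    have e2 : (r : ℤ) ^ (n + 1 + 1) = r ^ n * r * r := by rw [pow_succ, pow_succ]
    rw [e1] at h1 h3 h4 ⊢
    rw [e2]
    nlinarith

/-- the auxiliary number for the factorial -/
def facR (n : ℕ) : ℕ := (n ^ n + 1) * (n * n) + 1

lemma factorial_eq (n : ℕ) : n.factorial = facR n ^ n / (facR n).choose n := by
  have hr : (n.factorial + 1) * (n * n) < facR n := by
    unfold facR
    have h1 : n.factorial ≤ n ^ n := Nat.factorial_le_pow n
    have h2 := Nat.mul_le_mul_right (n * n) (Nat.add_le_add_right h1 1)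
    omega
  generalize facR n = r at hr ⊢
  have hnr : n ≤ r := by
    rcases Nat.eq_zero_or_pos n with h | h
    · omega
    · have : n * 1 ≤ n * n := Nat.mul_le_mul_left n h
      nlinarith [Nat.factorial_pos n]
  have hd := Nat.descFactorial_eq_factorial_mul_choose r n
  have hcpos : 0 < r.choose n := Nat.choose_pos hnr
  have hfpos : 0 < n.factorial := Nat.factorial_pos n
  symm
  rw [Nat.div_eq_iff hcpos]
  constructor
  · rw [← hd]
    exact Nat.descFactorial_le_pow r n
  · have h1 := desc_lower r n hnr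
    rw [hd] at h1
    push_cast at h1
    have hr' : ((n.factorial : ℤ) + 1) * (n * n) < r := by exact_mod_cast hr
    have hrpos : (0 : ℤ) < r := by
      have : (0 : ℤ) ≤ ((n.factorial : ℤ) + 1) * (n * n) := by positivity
      linarith
    have hp : (0 : ℤ) < (r : ℤ) ^ n := by positivity
    have hfz : (0 : ℤ) < (n.factorial : ℤ) := by exact_mod_cast hfpos
    -- n! * r^n < (n!+1) * n! * C
    have h2 : ((n.factorial : ℤ)) * r ^ n * r <
        (n.factorial + 1) * ((n.factorial : ℤ) * r.choose n) * r := by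
      have h3 : (0 : ℤ) < r ^ n * (r - (n.factorial + 1) * (n * n)) :=
        mul_pos hp (by linarith)
      have h4 := mul_le_mul_of_nonneg_left h1 (show (0 : ℤ) ≤ (n.factorial : ℤ) + 1 by positivity)
      have e1 : (r : ℤ) ^ (n + 1) = r ^ n * r := pow_succ _ _
      rw [e1] at h4
      nlinarith
    have h5 : ((n.factorial : ℤ)) * r ^ n < (n.factorial + 1) * ((n.factorial : ℤ) * r.choose n) :=
      lt_of_mul_lt_mul_right h2 hrpos.le
    have h6 : (n.factorial : ℤ) * r ^ n < n.factorial * ((n.factorial + 1) * r.choose n) := by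
      calc (n.factorial : ℤ) * r ^ n < (n.factorial + 1) * ((n.factorial : ℤ) * r.choose n) := h5
        _ = _ := by ring
    have h7 : (r : ℤ) ^ n < (n.factorial + 1) * r.choose n := lt_of_mul_lt_mul_left h6 hfz.le
    have h8 : r ^ n < (n.factorial + 1) * r.choose n := by exact_mod_cast h7
    rw [Nat.succ_mul] at h8
    omega

/-! ### products -/

/-- the product of `1 + (k+1) t` over `k < y` -/
def prodA (t y : ℕ) : ℕ := ∏ k ∈ range y, (1 + (k + 1) * t)

lemma prodA_eq (t y : ℕ) (ht : 0 < t) :
    prodA t y = (t ^ y * (y.factorial *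
      ((t * (1 + y * t) ^ y + 1 - (1 + y * t) ^ y) + y).choose y)) %
        (t * (1 + y * t) ^ y + 1) := by
  set P := (1 + y * t) ^ y with hP
  set M := t * P + 1 with hM
  set q := M - P with hq
  have hPM : P ≤ M := by
    rw [hM]
    nlinarith
  have htq : t * q ≡ 1 [MOD M] := by
    have e : t * q + M = t * M + 1 := by
      have : q + P = M := by omega
      have e2 : t * q + t * P = t * M := by rw [← mul_add, this]
      omega
    have h1 : t * q + M ≡ t * q [MOD M] := by simp [Nat.ModEq]
    have h2 : t * M + 1 ≡ 1 [MOD M] := by simp [Nat.ModEq]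
    rw [e] at h1
    exact h1.symm.trans h2
  have hle : prodA t y ≤ P := by
    unfold prodA
    calc ∏ k ∈ range y, (1 + (k + 1) * t) ≤ ∏ _k ∈ range y, (1 + y * t) := by
          refine Finset.prod_le_prod' fun k hk => ?_
          have := Finset.mem_range.1 hk
          have := Nat.mul_le_mul_right t (show k + 1 ≤ y by omega)
          omega
      _ = P := by rw [Finset.prod_const, Finset.card_range]
  have hlt : prodA t y < M := by
    have : P < M := by rw [hM]; nlinarith
    omega
  have h1 : t ^ y * (y.factorial * (q + y).choose y) ≡ prodA t y [MOD M] := by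
    rw [← Nat.ascFactorial_eq_factorial_mul_choose, Nat.ascFactorial_eq_prod_range]
    have e1 : t ^ y * ∏ i ∈ range y, (q + 1 + i) = ∏ i ∈ range y, (t * (q + 1 + i)) := by
      rw [Finset.prod_mul_distrib, Finset.prod_const, Finset.card_range]
    rw [e1]
    unfold prodA
    have key : ∀ s : ℕ, ∏ i ∈ range s, (t * (q + 1 + i)) ≡ ∏ k ∈ range s, (1 + (k + 1) * t) [MOD M] := by
      intro s
      induction s with
      | zero => rfl
      | succ s ih =>
        rw [Finset.prod_range_succ, Finset.prod_range_succ]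
        refine ih.mul ?_
        have e : t * (q + 1 + s) = t * q + (s + 1) * t := by ring
        rw [e]
        exact htq.add_right _
    exact key y
  have h2 := h1.symm
  rw [Nat.ModEq, Nat.mod_eq_of_lt hlt] at h2
  exact h2

/-! ### Diophantine functions -/

open Dioph

variable {α : Type} {f g : (α → ℕ) → ℕ}

lemma choose_dioph (df : DiophFn f) (dg : DiophFn g) : DiophFn fun v => (f v).choose (g v) := by
  have h1 : DiophFn fun v => 2 ^ f v + 1 :=
    add_dioph (pow_dioph (const_dioph 2) df) (const_dioph 1)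
  have h2 : DiophFn fun v => 1 + (2 ^ f v + 1) := add_dioph (const_dioph 1) h1
  have h3 := mod_dioph (div_dioph (pow_dioph h2 df) (pow_dioph h1 dg)) h1
  have e : (fun v => (f v).choose (g v)) =
      fun v => (1 + (2 ^ f v + 1)) ^ f v / (2 ^ f v + 1) ^ g v % (2 ^ f v + 1) :=
    funext fun v => choose_eq _ _
  rw [e]
  exact h3

lemma factorial_dioph (df : DiophFn f) : DiophFn fun v => (f v).factorial := by
  have h1 : DiophFn fun v => facR (f v) :=
    add_dioph (mul_dioph (add_dioph (pow_dioph df df) (const_dioph 1)) (mul_dioph df df))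
      (const_dioph 1)
  have h2 := div_dioph (pow_dioph h1 df) (choose_dioph h1 df)
  have e : (fun v => (f v).factorial) = fun v => facR (f v) ^ f v / (facR (f v)).choose (f v) :=
    funext fun v => factorial_eq _
  rw [e]
  exact h2

lemma desc_dioph (df : DiophFn f) (dg : DiophFn g) :
    DiophFn fun v => (f v).descFactorial (g v) := by
  have h := mul_dioph (factorial_dioph dg) (choose_dioph df dg)
  have e : (fun v => (f v).descFactorial (g v)) =
      fun v => (g v).factorial * (f v).choose (g v) :=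
    funext fun v => Nat.descFactorial_eq_factorial_mul_choose _ _
  rw [e]
  exact h

/-- the right-hand side of `prodA_eq` -/
def prodB (t y : ℕ) : ℕ :=
  (t ^ y * (y.factorial *
      ((t * (1 + y * t) ^ y + 1 - (1 + y * t) ^ y) + y).choose y)) %
        (t * (1 + y * t) ^ y + 1)

lemma prodB_dioph (df : DiophFn f) (dg : DiophFn g) : DiophFn fun v => prodB (f v) (g v) := by
  have hP : DiophFn fun v => (1 + g v * f v) ^ g v :=
    pow_dioph (add_dioph (const_dioph 1) (mul_dioph dg df)) dg
  have hM : DiophFn fun v => f v * (1 + g v * f v) ^ g v + 1 :=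
    add_dioph (mul_dioph df hP) (const_dioph 1)
  exact mod_dioph (mul_dioph (pow_dioph df dg) (mul_dioph (factorial_dioph dg)
    (choose_dioph (add_dioph (sub_dioph hM hP) dg) dg))) hM

end Pool.Agent.H64
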