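import Pool.Agent.Lib.helper64.MRDP.NF
import Pool.Agent.Lib.helper64.MRDP.Fn

/-!
# Diophantine sets: bounded universal quantifiers
-/

set_option autoImplicit false

namespace Pool.Agent.H64

open Finset (range)
open Dioph

/-! ### arithmetic -/

lemma prodA_succ (T y : ℕ) : prodA T (y + 1) = prodA T y * (1 + (y + 1) * T) := by
  unfold prodA
  rw [Finset.prod_range_succ]

lemma prodA_pos (T y : ℕ) : 0 < prodA T y := Finset.prod_pos fun _ _ => by omega

lemma prodA_form (T y : ℕ) (hy : 0 < y) : ∃ c, 1 + (c + 1) * T = prodA T y := by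
  obtain ⟨s, rfl⟩ : ∃ s, y = s + 1 := ⟨y - 1, by omega⟩
  clear hy
  induction s with
  | zero => exact ⟨0, by simp [prodA]⟩
  | succ s ih =>
    obtain ⟨c, hc⟩ := ih
    refine ⟨c + (s + 1 + 1) * (1 + (c + 1) * T), ?_⟩
    rw [prodA_succ, ← hc]
    ring

lemma dvd_prodA (T y k : ℕ) (hk : k < y) : 1 + (k + 1) * T ∣ prodA T y :=
  Finset.dvd_prod_of_mem _ (Finset.mem_range.2 hk)

lemma coprime_mods (Q k l : ℕ) (hk : k < l) (hl : l ≤ Q) :
    Nat.Coprime (1 + (k + 1) * Q.factorial) (1 + (l + 1) * Q.factorial) := by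
  by_contra hne
  obtain ⟨p, hp, h1, h2⟩ := Nat.Prime.not_coprime_iff_dvd.1 hne
  have h3 : p ∣ (l - k) * Q.factorial := by
    have e : 1 + (l + 1) * Q.factorial = (1 + (k + 1) * Q.factorial) + (l - k) * Q.factorial := by
      have : l + 1 = (k + 1) + (l - k) := by omega
      conv_lhs => rw [this, add_mul]
      ring
    rw [e] at h2
    exact (Nat.dvd_add_right h1).1 h2
  have h4 : p ∣ Q.factorial := by
    rcases hp.dvd_mul.1 h3 with h | h
    · exact h.trans (Nat.dvd_factorial (by omega) (by omega))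
    · exact h
  have h5 : p ∣ 1 := by
    have : p ∣ (k + 1) * Q.factorial := h4.mul_left _
    rw [add_comm] at h1
    exact (Nat.dvd_add_right this).1 h1
  exact hp.one_lt.ne' (Nat.dvd_one.1 h5)

lemma modEq_prodA (Q y x z : ℕ) (hy : y ≤ Q)
    (h : ∀ k < y, x ≡ z [MOD 1 + (k + 1) * Q.factorial]) :
    x ≡ z [MOD prodA Q.factorial y] := by
  induction y with
  | zero => simp [prodA, Nat.modEq_one]
  | succ y ih =>
    rw [prodA_succ]
    have hc : Nat.Coprime (prodA Q.factorial y) (1 + (y + 1) * Q.factorial) := by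
      unfold prodA
      exact Nat.Coprime.prod_left fun k hk =>
        coprime_mods Q k y (Finset.mem_range.1 hk) (by omega)
    rw [← Nat.modEq_and_modEq_iff_modEq_mul hc]
    exact ⟨ih (by omega) fun k hk => h k (by omega), h y (by omega)⟩

/-- the equations modulo `N` -/
def At.satMod {γ : Type} (N : ℕ) (v : γ → ℕ) : At γ → Prop
  | .one i => v i ≡ 1 [MOD N]
  | .add i j k => v i + v j ≡ v k [MOD N]
  | .mul i j k => v i * v j ≡ v k [MOD N]

/-- the variables of an equation -/
def At.vars {γ : Type} : At γ → List γ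
  | .one i => [i]
  | .add i j k => [i, j, k]
  | .mul i j k => [i, j, k]

lemma At.satMod_of_sat {γ : Type} (N : ℕ) {v w : γ → ℕ} (A : At γ) (h : A.sat v)
    (hvw : ∀ x ∈ A.vars, v x ≡ w x [MOD N]) : A.satMod N w := by
  cases A with
  | one i =>
    have h1 := hvw i (by simp [At.vars])
    unfold At.satMod
    unfold At.sat at h
    rw [h] at h1
    exact h1.symm
  | add i j k =>
    have h1 := hvw i (by simp [At.vars])
    have h2 := hvw j (by simp [At.vars])
    have h3 := hvw k (by simp [At.vars])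
    unfold At.satMod
    unfold At.sat at h
    rw [← h] at h3
    exact (h1.add h2).symm.trans h3
  | mul i j k =>
    have h1 := hvw i (by simp [At.vars])
    have h2 := hvw j (by simp [At.vars])
    have h3 := hvw k (by simp [At.vars])
    unfold At.satMod
    unfold At.sat at h
    rw [← h] at h3
    exact (h1.mul h2).symm.trans h3

lemma At.sat_of_satMod {γ : Type} (N u : ℕ) {v w : γ → ℕ} (A : At γ) (h : A.satMod N w)
    (hvw : ∀ x ∈ A.vars, v x ≡ w x [MOD N]) (hu : ∀ x ∈ A.vars, v x ≤ u)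
    (hN : u * u + 2 * u + 1 < N) : A.sat v := by
  have hbig : ∀ a b : ℕ, a ≤ u → b ≤ u → a * b < N := by
    intro a b ha hb
    have := Nat.mul_le_mul ha hb
    omega
  cases A with
  | one i =>
    have h1 := hvw i (by simp [At.vars])
    have u1 := hu i (by simp [At.vars])
    unfold At.satMod at h
    unfold At.sat
    exact Nat.ModEq.eq_of_lt_of_lt (h1.trans h) (by omega) (by omega)
  | add i j k =>
    have h1 := hvw i (by simp [At.vars])
    have h2 := hvw j (by simp [At.vars])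
    have h3 := hvw k (by simp [At.vars])
    have u1 := hu i (by simp [At.vars])
    have u2 := hu j (by simp [At.vars])
    have u3 := hu k (by simp [At.vars])
    unfold At.satMod at h
    unfold At.sat
    exact Nat.ModEq.eq_of_lt_of_lt (((h1.add h2).trans h).trans h3.symm) (by omega) (by omega)
  | mul i j k =>
    have h1 := hvw i (by simp [At.vars])
    have h2 := hvw j (by simp [At.vars])
    have h3 := hvw k (by simp [At.vars])
    have u1 := hu i (by simp [At.vars])
    have u2 := hu j (by simp [At.vars])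
    have u3 := hu k (by simp [At.vars])
    unfold At.satMod at h
    unfold At.sat
    exact Nat.ModEq.eq_of_lt_of_lt (((h1.mul h2).trans h).trans h3.symm) (hbig _ _ u1 u2) (by omega)

/-- the bound -/
def QQ (u : ℕ) : ℕ := u * u + 2 * u + 2

/-- the right-hand side -/
def RHS (L : List (At (ℕ ⊕ ℕ))) (m y : ℕ) (v : ℕ → ℕ) (u c : ℕ) (a : ℕ → ℕ) : Prop :=
  y ≤ u ∧ (∀ i < m, v i ≤ u) ∧ 1 + (c + 1) * (QQ u).factorial = prodA (QQ u).factorial y ∧
    (∀ j < m, prodA (QQ u).factorial y ∣ (a j).descFactorial (u + 1)) ∧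
    ∀ A ∈ L, A.satMod (prodA (QQ u).factorial y) (Sum.elim (cons c v) a)

lemma core_left (L : List (At (ℕ ⊕ ℕ))) (m : ℕ)
    (hm : ∀ A ∈ L, ∀ x ∈ A.vars, Sum.elim id id x < m) (v : ℕ → ℕ) (y u c : ℕ) (a : ℕ → ℕ)
    (h : RHS L m y v u c a) (k : ℕ) (hk : k < y) : ∃ t, Sat L (Sum.elim (cons k v) t) := by
  obtain ⟨h1, h2, h3, h4, h5⟩ := h
  set T := (QQ u).factorial with hT
  have hne : 1 + (k + 1) * T ≠ 1 := by
    have : 0 < T := Nat.factorial_pos _
    have : 0 < (k + 1) * T := Nat.mul_pos (Nat.succ_pos k) this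
    omega
  set p := Nat.minFac (1 + (k + 1) * T) with hp
  have hpp : p.Prime := Nat.minFac_prime hne
  have hpd : p ∣ 1 + (k + 1) * T := Nat.minFac_dvd _
  have hpP : p ∣ prodA T y := hpd.trans (dvd_prodA T y k hk)
  have hpT : ¬ p ∣ T := by
    intro hd
    have : p ∣ (k + 1) * T := hd.mul_left _
    rw [add_comm] at hpd
    have h5 : p ∣ 1 := (Nat.dvd_add_right this).1 hpd
    exact hpp.one_lt.ne' (Nat.dvd_one.1 h5)
  have hpQ : QQ u < p := by
    by_contra hle
    exact hpT ((hpp.dvd_factorial).2 (not_lt.1 hle))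
  have hck : k ≡ c [MOD p] := by
    have e1 : 1 + (c + 1) * T ≡ 1 + (k + 1) * T [MOD p] := by
      rw [h3]
      exact ((Nat.modEq_zero_iff_dvd.2 hpP).trans (Nat.modEq_zero_iff_dvd.2 hpd).symm)
    have e2 : (c + 1) * T ≡ (k + 1) * T [MOD p] := Nat.ModEq.add_left_cancel' 1 e1
    have e3 : c + 1 ≡ k + 1 [MOD p] :=
      Nat.ModEq.cancel_right_of_coprime ((Nat.Prime.coprime_iff_not_dvd hpp).2 hpT) e2
    exact (Nat.ModEq.add_right_cancel' 1 e3).symm
  have ha : ∀ j < m, a j % p ≤ u := by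
    intro j hj
    have hd := hpP.trans (h4 j hj)
    rw [Nat.descFactorial_eq_prod_range] at hd
    obtain ⟨i, hi, hdi⟩ := (Prime.dvd_finsetProd_iff hpp.prime _).1 hd
    have hi' := Finset.mem_range.1 hi
    unfold QQ at hpQ
    rcases Nat.lt_or_ge (a j) i with hlt | hge
    · exact (Nat.mod_le _ _).trans (by omega)
    · have e : a j = (a j - i) + i := by omega
      have : a j ≡ i [MOD p] := by
        have h0 : a j - i ≡ 0 [MOD p] := Nat.modEq_zero_iff_dvd.2 hdi
        have := h0.add_right i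
        rw [← e, zero_add] at this
        exact this
      have h6 : a j % p = i % p := this
      rw [h6, Nat.mod_eq_of_lt (by omega)]
      omega
  refine ⟨fun j => a j % p, fun A hA => ?_⟩
  have hsm : A.satMod p (Sum.elim (cons c v) a) := by
    have := h5 A hA
    cases A with
    | one i => exact this.of_dvd hpP
    | add i j k => exact this.of_dvd hpP
    | mul i j k => exact this.of_dvd hpP
  refine A.sat_of_satMod p u hsm ?_ ?_ (by unfold QQ at hpQ; omega)
  · intro x hx
    rcases x with x | x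
    · cases x with
      | zero => exact hck
      | succ x => rfl
    · exact Nat.mod_modEq _ _
  · intro x hx
    have hxm := hm A hA x hx
    rcases x with x | x
    · cases x with
      | zero => exact (by omega : k ≤ u)
      | succ x => exact h2 x (by simp only [Sum.elim_inl, id] at hxm; omega)
    · exact ha x hxm

lemma core_right (L : List (At (ℕ ⊕ ℕ))) (m : ℕ)
    (hm : ∀ A ∈ L, ∀ x ∈ A.vars, Sum.elim id id x < m) (v : ℕ → ℕ) (y : ℕ) (hy : 0 < y)
    (h : ∀ k < y, ∃ t, Sat L (Sum.elim (cons k v) t)) : ∃ u c a, RHS L m y v u c a := by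
  have h' : ∀ k, ∃ t : ℕ → ℕ, k < y → Sat L (Sum.elim (cons k v) t) := by
    intro k
    by_cases hk : k < y
    · obtain ⟨t, ht⟩ := h k hk
      exact ⟨t, fun _ => ht⟩
    · exact ⟨fun _ => 0, fun h => absurd h hk⟩
  choose t ht using h'
  let u := y + ∑ i ∈ range m, v i + ∑ k ∈ range y, ∑ j ∈ range m, t k j
  have hyu : y ≤ u := by simp only [u]; omega
  have hvu : ∀ i < m, v i ≤ u := by
    intro i hi
    have := Finset.single_le_sum (f := v) (fun _ _ => Nat.zero_le _) (Finset.mem_range.2 hi)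
    simp only [u]
    omega
  have htu : ∀ k < y, ∀ j < m, t k j ≤ u := by
    intro k hk j hj
    have h1 := Finset.single_le_sum (f := t k) (fun _ _ => Nat.zero_le _) (Finset.mem_range.2 hj)
    have h2 : ∑ j ∈ range m, t k j ≤ ∑ k ∈ range y, ∑ j ∈ range m, t k j :=
      Finset.single_le_sum (f := fun k => ∑ j ∈ range m, t k j)
        (fun _ _ => Nat.zero_le _) (Finset.mem_range.2 hk)
    simp only [u]
    omega
  clear_value u
  set T := (QQ u).factorial with hT
  have hyQ : y ≤ QQ u := by unfold QQ; nlinarith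
  obtain ⟨c, hc⟩ := prodA_form T y hy
  have hpair : Set.Pairwise (range y : Set ℕ)
      (Function.onFun Nat.Coprime (fun k => 1 + (k + 1) * T)) := by
    intro k hk l hl hkl
    have hk' : k < y := Finset.mem_range.1 hk
    have hl' : l < y := Finset.mem_range.1 hl
    rcases Nat.lt_or_gt_of_ne hkl with h | h
    · exact coprime_mods _ k l h (by omega)
    · exact (coprime_mods _ l k h (by omega)).symm
  have hcrt : ∀ j, ∃ a : ℕ, ∀ k < y, a ≡ t k j [MOD 1 + (k + 1) * T] := by
    intro j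
    have := Nat.chineseRemainderOfFinset (fun k => t k j) (fun k => 1 + (k + 1) * T) (range y)
      (fun k _ => by omega) hpair
    exact ⟨this.1, fun k hk => this.2 k (Finset.mem_range.2 hk)⟩
  choose a ha using hcrt
  refine ⟨u, c, a, hyu, hvu, hc, ?_, ?_⟩
  · intro j hj
    rw [← Nat.modEq_zero_iff_dvd]
    refine modEq_prodA _ _ _ _ hyQ fun k hk => ?_
    rw [Nat.modEq_zero_iff_dvd, Nat.descFactorial_eq_prod_range]
    have h1 : t k j ∈ range (u + 1) := Finset.mem_range.2 (Nat.lt_succ_of_le (htu k hk j hj))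
    refine dvd_trans ?_ (Finset.dvd_prod_of_mem _ h1)
    rcases Nat.lt_or_ge (a j) (t k j) with hlt | hge
    · rw [Nat.sub_eq_zero_of_le hlt.le]
      exact dvd_zero _
    · exact (Nat.modEq_iff_dvd' hge).1 (ha j k hk).symm
  · intro A hA
    have hck : ∀ k < y, k ≡ c [MOD 1 + (k + 1) * T] := by
      intro k hk
      have hd := dvd_prodA T y k hk
      rw [← hc] at hd
      have hcop : Nat.Coprime (1 + (k + 1) * T) T := by
        rw [Nat.coprime_add_mul_right_left]
        exact Nat.coprime_one_left T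
      have e1 : 1 + (c + 1) * T ≡ 1 + (k + 1) * T [MOD 1 + (k + 1) * T] :=
        (Nat.modEq_zero_iff_dvd.2 hd).trans (Nat.modEq_zero_iff_dvd.2 dvd_rfl).symm
      have e2 : (c + 1) * T ≡ (k + 1) * T [MOD 1 + (k + 1) * T] := Nat.ModEq.add_left_cancel' 1 e1
      have e3 : c + 1 ≡ k + 1 [MOD 1 + (k + 1) * T] := Nat.ModEq.cancel_right_of_coprime hcop e2
      exact (Nat.ModEq.add_right_cancel' 1 e3).symm
    have key : ∀ k < y, A.satMod (1 + (k + 1) * T) (Sum.elim (cons c v) a) := by
      intro k hk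
      refine A.satMod_of_sat _ (ht k hk A hA) ?_
      intro x hx
      have hxm := hm A hA x hx
      rcases x with x | x
      · cases x with
        | zero => exact hck k hk
        | succ x => rfl
      · exact (ha x k hk).symm
    cases A with
    | one i => exact modEq_prodA _ _ _ _ hyQ key
    | add i j k => exact modEq_prodA _ _ _ _ hyQ key
    | mul i j k => exact modEq_prodA _ _ _ _ hyQ key

/-! ### the set is Diophantine -/

lemma dioph_true {α : Type} : Dioph {_v : α → ℕ | True} :=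
  Dioph.ext (eq_dioph (const_dioph 0) (const_dioph 0)) fun _ => by simp

lemma dioph_forall_mem {α ι : Type} (l : List ι) (S : ι → Set (α → ℕ)) (h : ∀ i ∈ l, Dioph (S i)) :
    Dioph {v | ∀ i ∈ l, v ∈ S i} := by
  induction l with
  | nil => exact Dioph.ext dioph_true fun _ => by simp
  | cons i l ih =>
    refine Dioph.ext ((h i (by simp)).inter (ih fun j hj => h j (by simp [hj]))) fun v => ?_
    simp

lemma dioph_forall_lt {α : Type} (m : ℕ) (S : ℕ → Set (α → ℕ)) (h : ∀ i < m, Dioph (S i)) :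
    Dioph {v | ∀ i < m, v ∈ S i} := by
  refine Dioph.ext (dioph_forall_mem (List.range m) S fun i hi => h i (List.mem_range.1 hi))
    fun v => ?_
  simp

lemma exists_bound (L : List (At (ℕ ⊕ ℕ))) :
    ∃ m, ∀ A ∈ L, ∀ x ∈ A.vars, Sum.elim id id x < m := by
  refine ⟨(L.flatMap fun A => A.vars.map (Sum.elim id id)).sum + 1, fun A hA x hx => ?_⟩
  have : Sum.elim id id x ∈ L.flatMap fun A => A.vars.map (Sum.elim id id) :=
    List.mem_flatMap.2 ⟨A, hA, List.mem_map_of_mem hx⟩
  exact Nat.lt_succ_of_le (List.le_sum_of_mem this)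

theorem bforall {S : (ℕ → ℕ) → Prop} (hS : NF S) {f : (ℕ → ℕ) → ℕ} (hf : DiophFn f) :
    Dioph {v : ℕ → ℕ | ∀ k < f v, S (cons k v)} := by
  obtain ⟨L, hL⟩ := hS
  obtain ⟨m, hm⟩ := exists_bound L
  -- variables: `inl` the parameters, `inr 0 = u`, `inr 1 = c`, `inr (j + 2) = a j`
  let W : Set ((ℕ ⊕ ℕ) → ℕ) := {w | RHS L m (f (w ∘ Sum.inl)) (w ∘ Sum.inl) (w (Sum.inr 0))
    (w (Sum.inr 1)) (fun j => w (Sum.inr (j + 2)))}
  have hy : DiophFn fun w : (ℕ ⊕ ℕ) → ℕ => f (w ∘ Sum.inl) := reindex_diophFn _ hf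
  have hu : DiophFn fun w : (ℕ ⊕ ℕ) → ℕ => w (Sum.inr 0) := proj_dioph _
  have hcd : DiophFn fun w : (ℕ ⊕ ℕ) → ℕ => w (Sum.inr 1) := proj_dioph _
  have hT : DiophFn fun w : (ℕ ⊕ ℕ) → ℕ => (QQ (w (Sum.inr 0))).factorial :=
    factorial_dioph (add_dioph (add_dioph (mul_dioph hu hu) (mul_dioph (const_dioph 2) hu))
      (const_dioph 2))
  have hP : DiophFn fun w : (ℕ ⊕ ℕ) → ℕ =>
      prodA (QQ (w (Sum.inr 0))).factorial (f (w ∘ Sum.inl)) := by
    have := prodB_dioph hT hy
    have e : (fun w : (ℕ ⊕ ℕ) → ℕ => prodA (QQ (w (Sum.inr 0))).factorial (f (w ∘ Sum.inl))) =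
        fun w => prodB (QQ (w (Sum.inr 0))).factorial (f (w ∘ Sum.inl)) :=
      funext fun w => prodA_eq _ _ (Nat.factorial_pos _)
    rw [e]
    exact this
  have hvar : ∀ x : ℕ ⊕ ℕ, DiophFn fun w : (ℕ ⊕ ℕ) → ℕ =>
      (Sum.elim (cons (w (Sum.inr 1)) (w ∘ Sum.inl)) (fun j => w (Sum.inr (j + 2))) : ℕ ⊕ ℕ → ℕ)
        x := by
    intro x
    rcases x with x | x
    · cases x with
      | zero => exact hcd
      | succ x => exact proj_dioph (Sum.inl x)
    · exact proj_dioph (Sum.inr (x + 2))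
  have hW : Dioph W := by
    have c1 := le_dioph hy hu
    have c2 : Dioph {w : (ℕ ⊕ ℕ) → ℕ | ∀ i < m, (w ∘ Sum.inl) i ≤ w (Sum.inr 0)} :=
      dioph_forall_lt m (fun i => {w | (w ∘ Sum.inl) i ≤ w (Sum.inr 0)})
        fun i _ => le_dioph (proj_dioph (Sum.inl i)) hu
    have c3 := eq_dioph (add_dioph (const_dioph 1) (mul_dioph (add_dioph hcd (const_dioph 1)) hT)) hP
    have c4 : Dioph {w : (ℕ ⊕ ℕ) → ℕ | ∀ j < m,
        prodA (QQ (w (Sum.inr 0))).factorial (f (w ∘ Sum.inl)) ∣
          (w (Sum.inr (j + 2))).descFactorial (w (Sum.inr 0) + 1)} :=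
      dioph_forall_lt m (fun j => {w | prodA (QQ (w (Sum.inr 0))).factorial (f (w ∘ Sum.inl)) ∣
          (w (Sum.inr (j + 2))).descFactorial (w (Sum.inr 0) + 1)})
        fun j _ => dvd_dioph hP (desc_dioph (proj_dioph (Sum.inr (j + 2)))
          (add_dioph hu (const_dioph 1)))
    have c5 : Dioph {w : (ℕ ⊕ ℕ) → ℕ | ∀ A ∈ L, w ∈ {w : (ℕ ⊕ ℕ) → ℕ |
        A.satMod (prodA (QQ (w (Sum.inr 0))).factorial (f (w ∘ Sum.inl)))
          (Sum.elim (cons (w (Sum.inr 1)) (w ∘ Sum.inl)) (fun j => w (Sum.inr (j + 2))))}} := by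
      refine dioph_forall_mem L _ fun A _ => ?_
      cases A with
      | one i => exact modEq_dioph (hvar i) (const_dioph 1) hP
      | add i j k => exact modEq_dioph (add_dioph (hvar i) (hvar j)) (hvar k) hP
      | mul i j k => exact modEq_dioph (mul_dioph (hvar i) (hvar j)) (hvar k) hP
    exact Dioph.ext (c1.inter (c2.inter (c3.inter (c4.inter c5)))) fun w => Iff.rfl
  have h0 : Dioph {v : ℕ → ℕ | f v = 0} := eq_dioph hf (const_dioph 0)
  have h1 : Dioph {v : ℕ → ℕ | 0 < f v} := lt_dioph (const_dioph 0) hf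
  refine Dioph.ext (h0.union (h1.inter (ex_dioph hW))) fun v => ?_
  constructor
  · rintro (h | ⟨h, x, hx⟩)
    · intro k hk
      have h' : f v = 0 := h
      omega
    · intro k hk
      exact (hL _).2 (core_left L m hm v (f v) (x 0) (x 1) (fun j => x (j + 2)) hx k hk)
  · intro h
    rcases Nat.eq_zero_or_pos (f v) with h2 | h2
    · exact Or.inl h2
    · obtain ⟨u, c, a, hr⟩ := core_right L m hm v (f v) h2 fun k hk => (hL _).1 (h k hk)
      exact Or.inr ⟨h2, cons u (cons c a), hr⟩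

end Pool.Agent.H64
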