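import Pool.Agent.Lib.helper64.MRDP.Bd

/-!
# Recursively enumerable sets are Diophantine
-/

set_option autoImplicit false

namespace Pool.Agent.H64

open Dioph

lemma dioph_ex {S : Set (ℕ → ℕ)} (h : Dioph S) : Dioph {v : ℕ → ℕ | ∃ x, cons x v ∈ S} := by
  have h1 : Dioph {w : Option ℕ → ℕ | (w ∘ fun n : ℕ => Nat.casesOn n none some) ∈ S} :=
    reindex_dioph _ _ h
  refine Dioph.ext (ex1_dioph h1) fun v => ?_
  refine exists_congr fun x => ?_
  have e : (Option.elim' x v ∘ fun n : ℕ => Nat.casesOn n none some) = cons x v := by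
    funext n
    cases n <;> rfl
  simp only [Set.mem_ofPred_eq, e]

lemma diophFn_of_graph {F : (ℕ → ℕ) → ℕ} (h : Dioph {w : ℕ → ℕ | F (w ∘ Nat.succ) = w 0}) :
    DiophFn F := by
  have h1 : Dioph {v : Option ℕ → ℕ | (v ∘ fun n : ℕ => (Nat.casesOn n none some : Option ℕ)) ∈
      {w : ℕ → ℕ | F (w ∘ Nat.succ) = w 0}} := reindex_dioph _ _ h
  exact Dioph.ext h1 fun v => Iff.rfl

/-- Goedel's function -/
def bet (a b i : ℕ) : ℕ := a % ((i + 1) * b + 1)

lemma bet_dioph {f g h : (ℕ → ℕ) → ℕ} (df : DiophFn f) (dg : DiophFn g) (dh : DiophFn h) :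
    DiophFn fun v => bet (f v) (g v) (h v) :=
  mod_dioph df (add_dioph (mul_dioph (add_dioph dh (const_dioph 1)) dg) (const_dioph 1))

lemma exists_bet (n : ℕ) (s : ℕ → ℕ) : ∃ a b, ∀ i ≤ n, bet a b i = s i := by
  let l := List.ofFn (fun i : Fin (n + 1) => s i)
  refine ⟨(Nat.unbeta l).unpair.1, (Nat.unbeta l).unpair.2, fun i hi => ?_⟩
  have hl : l.length = n + 1 := List.length_ofFn
  have h := Nat.beta_unbeta_coe l ⟨i, by omega⟩
  unfold Nat.beta at h
  unfold bet
  rw [h]
  simp only [l, Fin.getElem_fin, List.getElem_ofFn]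

/-- Diophantine functions of vectors, closed under substitution -/
def DV {n : ℕ} (f : List.Vector ℕ n → ℕ) : Prop :=
  ∀ g : Fin n → (ℕ → ℕ) → ℕ, (∀ i, DiophFn (g i)) →
    DiophFn (fun v : ℕ → ℕ => f (List.Vector.ofFn (fun i => g i v)))

lemma DV_prec {n : ℕ} {f : List.Vector ℕ n → ℕ} {g : List.Vector ℕ (n + 2) → ℕ} (hf : DV f)
    (hg : DV g) : DV (fun v : List.Vector ℕ (n + 1) =>
      v.head.rec (f v.tail) fun y IH => g (y ::ᵥ IH ::ᵥ v.tail)) := by
  intro h hh
  let P : (ℕ → ℕ) → List.Vector ℕ n := fun v => List.Vector.ofFn fun i => h i.succ v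
  let F : ℕ → (ℕ → ℕ) → ℕ := fun k v => Nat.rec (f (P v)) (fun y IH => g (y ::ᵥ IH ::ᵥ P v)) k
  change DiophFn fun v => F (h 0 v) v
  apply diophFn_of_graph
  -- `w 0 = b`, `w 1 = a`, `w 2 = z`, then the parameters
  have hsh : ∀ (m : ℕ) (i : Fin (n + 1)), DiophFn fun w : ℕ → ℕ => h i (w ∘ (· + m)) :=
    fun m i => reindex_diophFn _ (hh i)
  have hP : ∀ m : ℕ, DiophFn fun w : ℕ → ℕ => f (P (w ∘ (· + m))) := fun m =>
    hf (fun i w => h i.succ (w ∘ (· + m))) fun i => hsh m i.succ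
  have hG : DiophFn fun w : ℕ → ℕ =>
      g (w 0 ::ᵥ bet (w 2) (w 1) (w 0) ::ᵥ P (w ∘ (· + 4))) := by
    let G : Fin (n + 2) → (ℕ → ℕ) → ℕ := Fin.cons (fun w => w 0)
      (Fin.cons (fun w => bet (w 2) (w 1) (w 0)) (fun i w => h i.succ (w ∘ (· + 4))))
    have := hg G (by
      intro i
      refine Fin.cases ?_ (fun j => ?_) i
      · exact proj_dioph 0
      · refine Fin.cases ?_ (fun l => ?_) j
        · exact bet_dioph (proj_dioph 2) (proj_dioph 1) (proj_dioph 0)
        · exact hsh 4 l.succ)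
    exact this
  have hS : Dioph {w : ℕ → ℕ | bet (w 2) (w 1) (w 0 + 1) =
      g (w 0 ::ᵥ bet (w 2) (w 1) (w 0) ::ᵥ P (w ∘ (· + 4)))} :=
    eq_dioph (bet_dioph (proj_dioph 2) (proj_dioph 1) (add_dioph (proj_dioph 0) (const_dioph 1))) hG
  have hB := bforall (NF_of_dioph hS) (hsh 3 0)
  have h1 : Dioph {w : ℕ → ℕ | bet (w 1) (w 0) 0 = f (P (w ∘ (· + 3)))} :=
    eq_dioph (bet_dioph (proj_dioph 1) (proj_dioph 0) (const_dioph 0)) (hP 3)
  have h2 : Dioph {w : ℕ → ℕ | bet (w 1) (w 0) (h 0 (w ∘ (· + 3))) = w 2} :=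
    eq_dioph (bet_dioph (proj_dioph 1) (proj_dioph 0) (hsh 3 0)) (proj_dioph 2)
  refine Dioph.ext (dioph_ex (dioph_ex (h1.inter (h2.inter hB)))) fun w => ?_
  have e3 : ∀ a b : ℕ, (cons b (cons a w)) ∘ (· + 3) = w ∘ Nat.succ := fun a b => rfl
  have e4 : ∀ a b k : ℕ, (cons k (cons b (cons a w))) ∘ (· + 4) = w ∘ Nat.succ := fun a b k => rfl
  constructor
  · rintro ⟨a, b, h1, h2, h3⟩
    change F (h 0 (w ∘ Nat.succ)) (w ∘ Nat.succ) = w 0
    change bet a b 0 = f (P (w ∘ Nat.succ)) at h1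
    change bet a b (h 0 (w ∘ Nat.succ)) = w 0 at h2
    rw [← h2]
    have key : ∀ k ≤ h 0 (w ∘ Nat.succ), F k (w ∘ Nat.succ) = bet a b k := by
      intro k
      induction k with
      | zero => intro _; exact h1.symm
      | succ k ih =>
        intro hk
        have h4 := h3 k (by exact hk)
        change bet a b (k + 1) = g (k ::ᵥ bet a b k ::ᵥ P (w ∘ Nat.succ)) at h4
        rw [h4, ← ih (by omega)]
    exact key _ le_rfl
  · intro hw
    change F (h 0 (w ∘ Nat.succ)) (w ∘ Nat.succ) = w 0 at hw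
    obtain ⟨a, b, hab⟩ := exists_bet (h 0 (w ∘ Nat.succ)) (fun k => F k (w ∘ Nat.succ))
    refine ⟨a, b, ?_, ?_, ?_⟩
    · exact hab 0 (Nat.zero_le _)
    · change bet a b (h 0 (w ∘ Nat.succ)) = w 0
      rw [hab _ le_rfl]
      exact hw
    · intro k hk
      change k < h 0 (w ∘ Nat.succ) at hk
      change bet a b (k + 1) = g (k ::ᵥ bet a b k ::ᵥ P (w ∘ Nat.succ))
      rw [hab (k + 1) hk, hab k (by omega)]

lemma DV_of_primrec {n : ℕ} {f : List.Vector ℕ n → ℕ} (hf : Nat.Primrec' f) : DV f := by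
  induction hf with
  | zero => intro g _; exact const_dioph 0
  | succ =>
    intro g hg
    exact add_dioph (hg 0) (const_dioph 1)
  | get i =>
    intro g hg
    have e : (fun v : ℕ → ℕ => (List.Vector.ofFn fun j => g j v).get i) = g i := by
      funext v
      rw [List.Vector.get_ofFn]
    rw [e]
    exact hg i
  | comp G _ _ ihf ihg =>
    intro g hg
    exact ihf (fun i v => G i (List.Vector.ofFn fun j => g j v)) fun i => ihg i g hg
  | prec _ _ ihf ihg => exact DV_prec ihf ihg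

/-- The theorem of Davis, Putnam, Robinson and Matiyasevich: a recursively enumerable set of
natural numbers is described by a finite system of elementary equations. -/
theorem mrdp {p : ℕ → Prop} (hp : REPred p) : NF (fun v => p (v 0)) := by
  obtain ⟨c, hc⟩ := Nat.Partrec.Code.exists_code.1
    (Partrec.nat_iff.1 (hp.map ((Computable.const 0).to₂)))
  have hdom : ∀ n, p n ↔ (c.eval n).Dom := by
    intro n
    rw [hc]
    simp [Part.assert]
  have hk : ∀ n, p n ↔ ∃ k, (c.evaln k n).isSome = true := by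
    intro n
    rw [hdom, Part.dom_iff_mem]
    constructor
    · rintro ⟨y, hy⟩
      obtain ⟨k, hk⟩ := Nat.Partrec.Code.evaln_complete.1 hy
      exact ⟨k, Option.isSome_iff_exists.2 ⟨y, hk⟩⟩
    · rintro ⟨k, hk⟩
      obtain ⟨y, hy⟩ := Option.isSome_iff_exists.1 hk
      exact ⟨y, Nat.Partrec.Code.evaln_sound hy⟩
  let f : List.Vector ℕ 2 → ℕ := fun v => bif (c.evaln v.head v.tail.head).isSome then 1 else 0
  have hf : Primrec f := by
    have h1 : Primrec fun v : List.Vector ℕ 2 => c.evaln v.head v.tail.head :=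
      Nat.Partrec.Code.primrec_evaln.comp ((Primrec.vector_head.pair (Primrec.const c)).pair
        (Primrec.vector_head.comp Primrec.vector_tail))
    exact Primrec.cond (Primrec.option_isSome.comp h1) (Primrec.const 1) (Primrec.const 0)
  have hD : DV f := DV_of_primrec (Nat.Primrec'.prim_iff.2 hf)
  have h1 : DiophFn fun w : ℕ → ℕ => f (w 0 ::ᵥ w 1 ::ᵥ List.Vector.nil) := by
    have := hD (Fin.cons (fun w => w 0) (Fin.cons (fun w => w 1) Fin.elim0)) (by
      intro i
      refine Fin.cases ?_ (fun j => ?_) i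
      · exact proj_dioph 0
      · refine Fin.cases ?_ (fun l => ?_) j
        · exact proj_dioph 1
        · exact l.elim0)
    exact this
  have h2 : NF (fun w => w ∈ {w : ℕ → ℕ | f (w 0 ::ᵥ w 1 ::ᵥ List.Vector.nil) = 1}) :=
    NF_of_dioph (eq_dioph h1 (const_dioph 1))
  refine h2.ex.congr fun v => ?_
  rw [hk]
  refine exists_congr fun k => ?_
  change _ ↔ (bif (c.evaln k (v 0)).isSome then 1 else 0) = 1
  cases (c.evaln k (v 0)).isSome <;> simp

/-- Hilbert's tenth problem: there is a finite system of elementary equations with one parameter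
whose solvability is undecidable. -/
theorem exists_system : ∃ L : List (At (ℕ ⊕ ℕ)),
    ¬ ComputablePred (fun n : ℕ => ∃ t : ℕ → ℕ, Sat L (Sum.elim (fun _ => n) t)) := by
  let p : ℕ → Prop := fun n => ((Denumerable.ofNat Nat.Partrec.Code n).eval 0).Dom
  have hp : REPred p := by
    have h : Partrec fun n : ℕ => (Denumerable.ofNat Nat.Partrec.Code n).eval 0 :=
      Nat.Partrec.Code.eval_part.comp (Computable.ofNat _) (Computable.const 0)
    exact h.dom_re
  obtain ⟨L, hL⟩ := mrdp hp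
  refine ⟨L, fun hcomp => ?_⟩
  have h1 : ComputablePred p := by
    refine hcomp.of_eq fun n => ?_
    exact (hL fun _ => n).symm
  apply ComputablePred.halting_problem 0
  have h2 : ComputablePred fun c : Nat.Partrec.Code => p (Encodable.encode c) :=
    ComputablePred.computable_iff.2 (by
      obtain ⟨g, hg, he⟩ := ComputablePred.computable_iff.1 h1
      refine ⟨fun c => g (Encodable.encode c), hg.comp Computable.encode, ?_⟩
      rw [he])
  refine h2.of_eq fun c => ?_
  simp [p]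

end Pool.Agent.H64
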