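import Mathlib

/-!
# Diophantine sets: systems of elementary equations
-/

set_option autoImplicit false

namespace Pool.Agent.H64

/-- the elementary equations `x_i = 1`, `x_i + x_j = x_k` and `x_i * x_j = x_k` -/
inductive At (γ : Type)
  | one (i : γ)
  | add (i j k : γ)
  | mul (i j k : γ)

variable {γ δ : Type}

/-- truth of an equation -/
def At.sat (v : γ → ℕ) : At γ → Prop
  | .one i => v i = 1
  | .add i j k => v i + v j = v k
  | .mul i j k => v i * v j = v k

/-- change of variables -/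
def At.map (f : γ → δ) : At γ → At δ
  | .one i => .one (f i)
  | .add i j k => .add (f i) (f j) (f k)
  | .mul i j k => .mul (f i) (f j) (f k)

lemma At.sat_map (f : γ → δ) (v : δ → ℕ) (A : At γ) : (A.map f).sat v ↔ A.sat (v ∘ f) := by
  cases A <;> rfl

/-- all equations hold -/
def Sat (L : List (At γ)) (v : γ → ℕ) : Prop := ∀ A ∈ L, A.sat v

lemma Sat_map (f : γ → δ) (L : List (At γ)) (v : δ → ℕ) :
    Sat (L.map (At.map f)) v ↔ Sat L (v ∘ f) := by
  unfold Sat
  constructor
  · intro h A hA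
    exact (At.sat_map f v A).1 (h _ (List.mem_map_of_mem hA))
  · intro h A hA
    obtain ⟨B, hB, rfl⟩ := List.mem_map.1 hA
    exact (At.sat_map f v B).2 (h B hB)

lemma Sat_append (L M : List (At γ)) (v : γ → ℕ) : Sat (L ++ M) v ↔ Sat L v ∧ Sat M v := by
  unfold Sat
  constructor
  · intro h
    exact ⟨fun A hA => h A (List.mem_append_left _ hA), fun A hA => h A (List.mem_append_right _ hA)⟩
  · rintro ⟨h1, h2⟩ A hA
    rcases List.mem_append.1 hA with h | h
    · exact h1 A h
    · exact h2 A h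

/-- sequence with new first entry -/
def cons (x : ℕ) (v : ℕ → ℕ) : ℕ → ℕ
  | 0 => x
  | n + 1 => v n

@[simp] lemma cons_zero (x : ℕ) (v : ℕ → ℕ) : cons x v 0 = x := rfl
@[simp] lemma cons_succ (x : ℕ) (v : ℕ → ℕ) (n : ℕ) : cons x v (n + 1) = v n := rfl
@[simp] lemma cons_comp_succ (x : ℕ) (v : ℕ → ℕ) : cons x v ∘ Nat.succ = v := rfl

lemma cons_one (x y : ℕ) (v : ℕ → ℕ) : cons x (cons y v) 1 = y := rfl

/-- Diophantine, by a system of elementary equations -/
def NF (S : (ℕ → ℕ) → Prop) : Prop :=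
  ∃ L : List (At (ℕ ⊕ ℕ)), ∀ v, S v ↔ ∃ t, Sat L (Sum.elim v t)

lemma NF.congr {S T : (ℕ → ℕ) → Prop} (h : NF S) (hST : ∀ v, T v ↔ S v) : NF T := by
  obtain ⟨L, hL⟩ := h
  exact ⟨L, fun v => (hST v).trans (hL v)⟩

lemma NF.atom (A : At ℕ) : NF (fun v => A.sat v) := by
  refine ⟨[A.map Sum.inl], fun v => ?_⟩
  constructor
  · intro h
    refine ⟨fun _ => 0, ?_⟩
    intro B hB
    rw [List.mem_singleton] at hB
    subst hB
    rw [At.sat_map]
    exact h
  · rintro ⟨t, ht⟩
    have := ht _ (List.mem_singleton.2 rfl)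
    rw [At.sat_map] at this
    exact this

lemma NF.and {S T : (ℕ → ℕ) → Prop} (hS : NF S) (hT : NF T) : NF (fun v => S v ∧ T v) := by
  obtain ⟨L, hL⟩ := hS
  obtain ⟨M, hM⟩ := hT
  refine ⟨L.map (At.map (Sum.map id (fun n => 2 * n))) ++
    M.map (At.map (Sum.map id (fun n => 2 * n + 1))), fun v => ?_⟩
  simp only [Sat_append, Sat_map]
  rw [hL, hM]
  constructor
  · rintro ⟨⟨t, ht⟩, ⟨u, hu⟩⟩
    refine ⟨fun n => if n % 2 = 0 then t (n / 2) else u (n / 2), ?_, ?_⟩
    · convert ht using 1
      funext x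
      rcases x with x | x
      · rfl
      · simp
    · convert hu using 1
      funext x
      rcases x with x | x
      · rfl
      · have h1 : (2 * x + 1) % 2 = 1 := by omega
        have h2 : (2 * x + 1) / 2 = x := by omega
        simp [h1, h2]
  · rintro ⟨t, h1, h2⟩
    refine ⟨⟨fun n => t (2 * n), ?_⟩, ⟨fun n => t (2 * n + 1), ?_⟩⟩
    · convert h1 using 1
      funext x
      rcases x with x | x <;> rfl
    · convert h2 using 1
      funext x
      rcases x with x | x <;> rfl

lemma NF.ex {S : (ℕ → ℕ) → Prop} (hS : NF S) : NF (fun v => ∃ x, S (cons x v)) := by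
  obtain ⟨L, hL⟩ := hS
  let f : ℕ ⊕ ℕ → ℕ ⊕ ℕ := Sum.elim (fun i => Nat.casesOn i (Sum.inr 0) Sum.inl)
    (fun n => Sum.inr (n + 1))
  have key : ∀ (v : ℕ → ℕ) (x : ℕ) (t : ℕ → ℕ),
      Sum.elim v (cons x t) ∘ f = Sum.elim (cons x v) t := by
    intro v x t
    funext i
    rcases i with i | i
    · cases i <;> rfl
    · rfl
  refine ⟨L.map (At.map f), fun v => ?_⟩
  simp only [Sat_map]
  constructor
  · rintro ⟨x, hx⟩
    obtain ⟨t, ht⟩ := (hL _).1 hx
    refine ⟨cons x t, ?_⟩
    rw [key]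
    exact ht
  · rintro ⟨t, ht⟩
    refine ⟨t 0, (hL _).2 ⟨fun n => t (n + 1), ?_⟩⟩
    rw [← key]
    have e : cons (t 0) (fun n => t (n + 1)) = t := by
      funext n
      cases n <;> rfl
    rw [e]
    exact ht

lemma NF.reindex {S : (ℕ → ℕ) → Prop} (hS : NF S) (g : ℕ → ℕ) : NF (fun v => S (v ∘ g)) := by
  obtain ⟨L, hL⟩ := hS
  refine ⟨L.map (At.map (Sum.map g id)), fun v => ?_⟩
  refine (hL (v ∘ g)).trans ?_
  simp only [Sat_map]
  refine exists_congr fun t => ?_
  have e : Sum.elim (v ∘ g) t = Sum.elim v t ∘ Sum.map g id := by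
    funext i
    rcases i with i | i <;> rfl
  rw [e]

lemma NF.one (i : ℕ) : NF (fun v => v i = 1) := NF.atom (.one i)
lemma NF.add (i j k : ℕ) : NF (fun v => v i + v j = v k) := NF.atom (.add i j k)
lemma NF.mul (i j k : ℕ) : NF (fun v => v i * v j = v k) := NF.atom (.mul i j k)

lemma NF.zero (i : ℕ) : NF (fun v => v i = 0) := by
  refine (NF.add i i i).congr fun v => ?_
  omega

lemma NF.eq (i j : ℕ) : NF (fun v => v i = v j) := by
  refine (((NF.one 0).and (NF.mul 0 (i + 1) (j + 1))).ex).congr fun v => ?_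
  simp only [cons_zero, cons_succ]
  constructor
  · intro h
    exact ⟨1, rfl, by rw [one_mul, h]⟩
  · rintro ⟨x, rfl, h⟩
    rw [one_mul] at h
    exact h

lemma NF.const (i n : ℕ) : NF (fun v => v i = n) := by
  induction n generalizing i with
  | zero => exact NF.zero i
  | succ n ih =>
    refine ((((NF.one 0).and (ih 1)).and (NF.add 1 0 (i + 2))).ex.ex).congr fun v => ?_
    simp only [cons_zero, cons_succ]
    constructor
    · intro h
      exact ⟨n, 1, ⟨rfl, rfl⟩, h.symm⟩
    · rintro ⟨x, y, ⟨rfl, rfl⟩, h⟩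
      exact h.symm

/-- natural polynomials -/
inductive NE (γ : Type)
  | var (i : γ)
  | const (n : ℕ)
  | add (e f : NE γ)
  | mul (e f : NE γ)

/-- value -/
def NE.eval (v : γ → ℕ) : NE γ → ℕ
  | .var i => v i
  | .const n => n
  | .add e f => e.eval v + f.eval v
  | .mul e f => e.eval v * f.eval v

/-- change of variables -/
def NE.map (g : γ → δ) : NE γ → NE δ
  | .var i => .var (g i)
  | .const n => .const n
  | .add e f => .add (e.map g) (f.map g)
  | .mul e f => .mul (e.map g) (f.map g)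

lemma NE.eval_map (g : γ → δ) (v : δ → ℕ) (e : NE γ) : (e.map g).eval v = e.eval (v ∘ g) := by
  induction e with
  | var i => rfl
  | const n => rfl
  | add e f ihe ihf => simp only [NE.map, NE.eval, ihe, ihf]
  | mul e f ihe ihf => simp only [NE.map, NE.eval, ihe, ihf]

/-- variables -/
def NE.vars : NE γ → List γ
  | .var i => [i]
  | .const _ => []
  | .add e f => e.vars ++ f.vars
  | .mul e f => e.vars ++ f.vars

lemma NE.eval_congr {v w : γ → ℕ} (e : NE γ) (h : ∀ i ∈ e.vars, v i = w i) :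
    e.eval v = e.eval w := by
  induction e with
  | var i => exact h i (by simp [NE.vars])
  | const n => rfl
  | add e f ihe ihf =>
    simp only [NE.eval]
    rw [ihe fun i hi => h i (List.mem_append_left _ hi),
      ihf fun i hi => h i (List.mem_append_right _ hi)]
  | mul e f ihe ihf =>
    simp only [NE.eval]
    rw [ihe fun i hi => h i (List.mem_append_left _ hi),
      ihf fun i hi => h i (List.mem_append_right _ hi)]

lemma NF.ne (e : NE ℕ) : NF (fun v => e.eval (v ∘ Nat.succ) = v 0) := by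
  induction e with
  | var i => exact NF.eq (i + 1) 0
  | const n =>
    refine (NF.const 0 n).congr fun v => ?_
    exact eq_comm
  | add e f ihe ihf =>
    refine (((ihe.reindex (fun i => if i = 0 then 0 else i + 2)).and
      (ihf.reindex (fun i => if i = 0 then 1 else i + 2))).and (NF.add 0 1 2)).ex.ex.congr
      fun v => ?_
    have e1 : ∀ x y : ℕ, (cons x (cons y v) ∘ fun i => if i = 0 then 0 else i + 2) ∘ Nat.succ =
        v ∘ Nat.succ := by
      intro x y
      funext i
      simp
    have e2 : ∀ x y : ℕ, (cons x (cons y v) ∘ fun i => if i = 0 then 1 else i + 2) ∘ Nat.succ =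
        v ∘ Nat.succ := by
      intro x y
      funext i
      simp
    simp only [e1, e2, NE.eval]
    constructor
    · intro h
      exact ⟨_, _, ⟨rfl, rfl⟩, h⟩
    · rintro ⟨x, y, ⟨h1, h2⟩, h3⟩
      rw [h1, h2]
      exact h3
  | mul e f ihe ihf =>
    refine (((ihe.reindex (fun i => if i = 0 then 0 else i + 2)).and
      (ihf.reindex (fun i => if i = 0 then 1 else i + 2))).and (NF.mul 0 1 2)).ex.ex.congr
      fun v => ?_
    have e1 : ∀ x y : ℕ, (cons x (cons y v) ∘ fun i => if i = 0 then 0 else i + 2) ∘ Nat.succ =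
        v ∘ Nat.succ := by
      intro x y
      funext i
      simp
    have e2 : ∀ x y : ℕ, (cons x (cons y v) ∘ fun i => if i = 0 then 1 else i + 2) ∘ Nat.succ =
        v ∘ Nat.succ := by
      intro x y
      funext i
      simp
    simp only [e1, e2, NE.eval]
    constructor
    · intro h
      exact ⟨_, _, ⟨rfl, rfl⟩, h⟩
    · rintro ⟨x, y, ⟨h1, h2⟩, h3⟩
      rw [h1, h2]
      exact h3

lemma NF.neq (e f : NE ℕ) : NF (fun v => e.eval v = f.eval v) := by
  refine ((NF.ne e).and (NF.ne f)).ex.congr fun v => ?_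
  simp only [cons_comp_succ, cons_zero]
  constructor
  · intro h
    exact ⟨_, h, rfl⟩
  · rintro ⟨x, h1, h2⟩
    rw [h1, h2]

lemma NF.exseq (e f : NE (ℕ ⊕ ℕ)) :
    NF (fun v => ∃ t : ℕ → ℕ, e.eval (Sum.elim v t) = f.eval (Sum.elim v t)) := by
  let g : ℕ ⊕ ℕ → ℕ := Sum.elim (fun i => 2 * i) (fun i => 2 * i + 1)
  obtain ⟨L, hL⟩ := NF.neq (e.map g) (f.map g)
  let h : ℕ ⊕ ℕ → ℕ ⊕ ℕ := Sum.elim
    (fun i => if i % 2 = 0 then Sum.inl (i / 2) else Sum.inr (2 * (i / 2)))
    (fun n => Sum.inr (2 * n + 1))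
  refine ⟨L.map (At.map h), fun v => ?_⟩
  simp only [Sat_map]
  constructor
  · rintro ⟨t, ht⟩
    let w : ℕ → ℕ := fun i => if i % 2 = 0 then v (i / 2) else t (i / 2)
    have hw : w ∘ g = Sum.elim v t := by
      funext i
      rcases i with i | i
      · simp [w, g]
      · have h1 : (2 * i + 1) % 2 = 1 := by omega
        have h2 : (2 * i + 1) / 2 = i := by omega
        simp [w, g, h1, h2]
    obtain ⟨s, hs⟩ := (hL w).1 (by simp only [NE.eval_map, hw]; exact ht)
    refine ⟨fun n => if n % 2 = 0 then t (n / 2) else s (n / 2), ?_⟩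
    convert hs using 1
    funext i
    rcases i with i | i
    · simp only [h, w, Function.comp, Sum.elim_inl]
      by_cases hi : i % 2 = 0
      · rw [if_pos hi, if_pos hi]; rfl
      · rw [if_neg hi, if_neg hi]; simp
    · have h1 : (2 * i + 1) % 2 = 1 := by omega
      have h2 : (2 * i + 1) / 2 = i := by omega
      simp [h, h1, h2]
  · rintro ⟨t, ht⟩
    refine ⟨fun n => t (2 * n), ?_⟩
    let w : ℕ → ℕ := fun i => if i % 2 = 0 then v (i / 2) else t (2 * (i / 2))
    have hw : w ∘ g = Sum.elim v (fun n => t (2 * n)) := by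
      funext i
      rcases i with i | i
      · simp [w, g]
      · have h1 : (2 * i + 1) % 2 = 1 := by omega
        have h2 : (2 * i + 1) / 2 = i := by omega
        simp [w, g, h1, h2]
    have hh := (hL w).2 ⟨fun n => t (2 * n + 1), by
      convert ht using 1
      funext i
      rcases i with i | i
      · simp only [h, w, Function.comp, Sum.elim_inl]
        by_cases hi : i % 2 = 0
        · rw [if_pos hi, if_pos hi]; rfl
        · rw [if_neg hi, if_neg hi]; rfl
      · rfl⟩
    simp only [NE.eval_map, hw] at hh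
    exact hh

/-- splitting an integer polynomial -/
lemma exists_NE {γ : Type} {p : (γ → ℕ) → ℤ} (hp : IsPoly p) :
    ∃ e f : NE γ, ∀ v, p v = (e.eval v : ℤ) - f.eval v := by
  induction hp with
  | proj i => exact ⟨.var i, .const 0, fun v => by simp [NE.eval]⟩
  | const n =>
    exact ⟨.const n.toNat, .const (-n).toNat, fun v => by simp only [NE.eval]; omega⟩
  | @sub f g _ _ ihf ihg =>
    obtain ⟨e1, f1, h1⟩ := ihf
    obtain ⟨e2, f2, h2⟩ := ihg
    refine ⟨.add e1 f2, .add f1 e2, fun v => ?_⟩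
    simp only [NE.eval]
    rw [h1, h2]
    push_cast
    ring
  | @mul f g _ _ ihf ihg =>
    obtain ⟨e1, f1, h1⟩ := ihf
    obtain ⟨e2, f2, h2⟩ := ihg
    refine ⟨.add (.mul e1 e2) (.mul f1 f2), .add (.mul e1 f2) (.mul f1 e2), fun v => ?_⟩
    simp only [NE.eval]
    rw [h1, h2]
    push_cast
    ring

theorem NF_of_dioph {S : Set (ℕ → ℕ)} (h : Dioph S) : NF (fun v => v ∈ S) := by
  classical
  obtain ⟨β, p, hp⟩ := h
  obtain ⟨e, f, hef⟩ := exists_NE p.2
  let l : List β := (e.vars ++ f.vars).filterMap (fun x => Sum.elim (fun _ => none) some x)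
  let g : ℕ ⊕ β → ℕ ⊕ ℕ := Sum.map id (fun b => l.idxOf b)
  refine (NF.exseq (e.map g) (f.map g)).congr fun v => ?_
  rw [hp v]
  have hz : ∀ t : β → ℕ, p (Sum.elim v t) = 0 ↔
      e.eval (Sum.elim v t) = f.eval (Sum.elim v t) := by
    intro t
    have := hef (Sum.elim v t)
    change p (Sum.elim v t) = _ at this
    rw [this]
    omega
  simp only [hz, NE.eval_map]
  constructor
  · rintro ⟨t, ht⟩
    let t' : ℕ → ℕ := fun n => if h : n < l.length then t l[n] else 0
    refine ⟨t', ?_⟩
    have hmem : ∀ i ∈ e.vars ++ f.vars, (Sum.elim v t' ∘ g) i = Sum.elim v t i := by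
      intro i hi
      rcases i with i | b
      · rfl
      · have hb : b ∈ l := by
          simp only [l, List.mem_filterMap]
          exact ⟨Sum.inr b, hi, rfl⟩
        have hlt : l.idxOf b < l.length := List.idxOf_lt_length_of_mem hb
        simp only [g, t', Function.comp, Sum.map_inr, Sum.elim_inr]
        rw [dif_pos hlt, List.getElem_idxOf hlt]
    rw [e.eval_congr (w := Sum.elim v t) fun i hi => hmem i (List.mem_append_left _ hi),
      f.eval_congr (w := Sum.elim v t) fun i hi => hmem i (List.mem_append_right _ hi)]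
    exact ht
  · rintro ⟨t, ht⟩
    refine ⟨fun b => t (l.idxOf b), ?_⟩
    have : Sum.elim v (fun b => t (l.idxOf b)) = Sum.elim v t ∘ g := by
      funext i
      rcases i with i | b <;> rfl
    rw [this]
    exact ht

end Pool.Agent.H64
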